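import Pool.Agent.H179_KR.Main

/-! The multicolour Ramsey property of Kneser graphs. -/

namespace Pool.Agent.Results.MP_90c2fd_co.KneserRamsey

/-- The Kneser graph `KG(m,k)`: the vertices are the `k`-element subsets of an `m`-element set, and
two (distinct) vertices are adjacent exactly when they are disjoint. -/
def kneser (m k : ℕ) : SimpleGraph {A : Finset (Fin m) // A.card = k} where
  Adj A B := A ≠ B ∧ Disjoint A.1 B.1
  symm := ⟨fun _ _ h => ⟨h.1.symm, h.2.symm⟩⟩
  loopless := ⟨fun _ h => h.1 rfl⟩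

/-- Blowing up large subsets of `Fin N` to `k`-subsets of `Fin m`, preserving disjointness. -/
lemma blow (N m k b : ℕ) (hb : N * b ≤ m) : ∃ φ : Finset (Fin N) → Finset (Fin m),
    (∀ A, k ≤ A.card * b → (φ A).card = k) ∧ (∀ A B, Disjoint A B → Disjoint (φ A) (φ B)) := by
  classical
  let e : Fin N × Fin b ↪ Fin m := finProdFinEquiv.toEmbedding.trans (Fin.castLEEmb hb)
  let φ₀ : Finset (Fin N) → Finset (Fin m) := fun A => (A ×ˢ (Finset.univ : Finset (Fin b))).map e
  have h0 : ∀ A, (φ₀ A).card = A.card * b := by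
    intro A; simp [φ₀]
  have h1 : ∀ A : Finset (Fin N), ∃ C : Finset (Fin m), C ⊆ φ₀ A ∧ (k ≤ A.card * b → C.card = k) := by
    intro A
    by_cases h : k ≤ A.card * b
    · obtain ⟨C, hC1, hC2⟩ := Finset.exists_subset_card_eq (s := φ₀ A) (n := k) (by rw [h0]; exact h)
      exact ⟨C, hC1, fun _ => hC2⟩
    · exact ⟨∅, by simp, fun h' => absurd h' h⟩
  choose φ hφ1 hφ2 using h1
  refine ⟨φ, hφ2, ?_⟩
  intro A B hAB
  refine Finset.disjoint_of_subset_left (hφ1 A) (Finset.disjoint_of_subset_right (hφ1 B) ?_)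
  simp only [φ₀]
  rw [Finset.disjoint_map, Finset.disjoint_product]
  exact Or.inl hAB

/-- For all `c, n ≥ 2` and every rational `α > n` there is `k₀` such that for every positive integer
`k ≥ k₀` for which `m = α k` is an integer, every `c`-colouring of the edges of `KG(m,k)` contains a
monochromatic `K_n`. -/
theorem result : ∀ c n : ℕ, 2 ≤ c → 2 ≤ n → ∀ α : ℚ, (n : ℚ) < α →
    ∃ k₀ : ℕ, ∀ k : ℕ, k₀ ≤ k → 0 < k → ∀ m : ℕ, (m : ℚ) = α * k →
      ∀ χ : (kneser m k).edgeSet → Fin c,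
        ∃ S : Finset {A : Finset (Fin m) // A.card = k}, (kneser m k).IsNClique n S ∧
          ∃ a : Fin c, ∀ u ∈ S, ∀ v ∈ S, ∀ h : (kneser m k).Adj u v, χ ⟨s(u, v), h⟩ = a := by
  intro c n hc hn α hα
  classical
  have hc0 : 0 < c := by omega
  obtain ⟨n', rfl⟩ : ∃ n', n = n' + 1 := ⟨n - 1, by omega⟩
  have hαR : ((n' + 1 : ℕ) : ℝ) < (α : ℝ) := by exact_mod_cast hα
  set α₀ : ℝ := (((n' + 1 : ℕ) : ℝ) + α) / 2 with hα₀
  have h1 : ((n' + 1 : ℕ) : ℝ) < α₀ := by rw [hα₀]; linarith
  have h2 : α₀ < α := by rw [hα₀]; linarith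
  have h3 : 0 < α₀ := lt_of_le_of_lt (by positivity) h1
  obtain ⟨N₁, hN₁⟩ := Pool.Agent.H179_KR.core c n' α₀ h1
  set N := N₁ + 1 with hN
  have hNpos : 0 < N := by omega
  have hNR : (0 : ℝ) < N := by exact_mod_cast hNpos
  have hgap : 0 < (α : ℝ) - α₀ := by linarith
  obtain ⟨k₀, hk₀⟩ := exists_nat_gt ((N : ℝ) / ((α : ℝ) - α₀))
  refine ⟨k₀, ?_⟩
  intro k hk hkpos m hm χ
  have hkR : (0 : ℝ) < k := by exact_mod_cast hkpos
  have hmR : (m : ℝ) = α * k := by exact_mod_cast hm
  -- block length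
  set b := m / N with hb
  obtain ⟨φ, hφ1, hφ2⟩ := blow N m k b (by rw [hb]; exact Nat.mul_div_le m N)
  have hsize : ∀ A : Finset (Fin N), (N : ℝ) ≤ α₀ * A.card → k ≤ A.card * b := by
    intro A hA
    have e1 : m < N * (b + 1) := by
      rw [hb]
      have := Nat.lt_mul_div_succ m hNpos
      simpa using this
    have e2 : (m : ℝ) < N * (b + 1) := by exact_mod_cast e1
    have e3 : (N : ℝ) < k * ((α : ℝ) - α₀) := by
      have : (N : ℝ) / ((α : ℝ) - α₀) < k := lt_of_lt_of_le hk₀ (by exact_mod_cast hk)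
      rwa [div_lt_iff₀ hgap] at this
    -- N * b > m - N > k α₀
    have e4 : k * α₀ < N * b := by
      rw [hmR] at e2
      nlinarith
    have e5 : (0 : ℝ) ≤ b := by positivity
    have e6 : k * α₀ < α₀ * (A.card * b) := by
      calc k * α₀ < N * b := e4
        _ ≤ (α₀ * A.card) * b := mul_le_mul_of_nonneg_right hA e5
        _ = α₀ * (A.card * b) := by ring
    have e7 : (k : ℝ) < A.card * b := by
      by_contra hcon
      push Not at hcon
      have := mul_le_mul_of_nonneg_left hcon h3.le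
      linarith
    have e8 : k < A.card * b := by exact_mod_cast e7
    exact e8.le
  let χ' : Finset (Fin N) → Finset (Fin N) → Fin c := fun A B =>
    if hA : (φ A).card = k then
      if hB : (φ B).card = k then
        if h : (kneser m k).Adj ⟨φ A, hA⟩ ⟨φ B, hB⟩ then χ ⟨s(⟨φ A, hA⟩, ⟨φ B, hB⟩), h⟩ else ⟨0, hc0⟩
      else ⟨0, hc0⟩
    else ⟨0, hc0⟩
  obtain ⟨a, L, hL1, hL2, hL3⟩ := hN₁ N (by omega) χ'
  have hcard : ∀ A ∈ L, (φ A).card = k := fun A hA => hφ1 A (hsize A (hL2 A hA))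
  have hadj : ∀ A B (hA : (φ A).card = k) (hB : (φ B).card = k), Disjoint A B →
      (kneser m k).Adj ⟨φ A, hA⟩ ⟨φ B, hB⟩ := by
    intro A B hA hB hAB
    have hd : Disjoint (φ A) (φ B) := hφ2 A B hAB
    refine ⟨?_, hd⟩
    intro he
    have he' : φ A = φ B := congrArg Subtype.val he
    rw [← he', Finset.disjoint_self_iff_empty] at hd
    rw [hd] at hA
    simp at hA
    omega
  -- the vertices
  let V : Finset (Fin N) → {A : Finset (Fin m) // A.card = k} := fun A =>
    if h : (φ A).card = k then ⟨φ A, h⟩ else ⟨φ (L.headI), by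
      rcases L with _ | ⟨p, L'⟩
      · simp at hL1
      · exact hcard p List.mem_cons_self⟩
  have hV : ∀ A (h : (φ A).card = k), V A = ⟨φ A, h⟩ := fun A h => dif_pos h
  have hpair : (L.map V).Pairwise (fun u v => (kneser m k).Adj u v ∧
      ∀ h : (kneser m k).Adj u v, χ ⟨s(u, v), h⟩ = a) := by
    rw [List.pairwise_map]
    refine hL3.imp_of_mem ?_
    intro A B hA hB hAB
    have gA := hcard A hA
    have gB := hcard B hB
    have gadj := hadj A B gA gB hAB.1
    rw [hV A gA, hV B gB]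
    refine ⟨gadj, ?_⟩
    intro h
    have e := hAB.2
    simp only [χ', dif_pos gA, dif_pos gB, dif_pos gadj] at e
    exact e
  have hnd : (L.map V).Nodup := by
    refine hpair.imp ?_
    intro u v h
    exact h.1.ne
  have hsym : ∀ u ∈ L.map V, ∀ v ∈ L.map V, u ≠ v → (kneser m k).Adj u v ∧
      ∀ h : (kneser m k).Adj u v, χ ⟨s(u, v), h⟩ = a := by
    intro u hu v hv huv
    refine List.Pairwise.forall_of_forall_of_flip (R := fun u v => u ≠ v → (kneser m k).Adj u v ∧
      ∀ h : (kneser m k).Adj u v, χ ⟨s(u, v), h⟩ = a) ?_ ?_ ?_ hu hv huv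
    · intro w _ hw; exact absurd rfl hw
    · refine hpair.imp ?_
      intro u v h _
      exact h
    · refine hpair.imp ?_
      intro u v h _
      refine ⟨h.1.symm, ?_⟩
      intro h'
      rw [← h.2 h.1]
      congr 1
      exact Subtype.ext Sym2.eq_swap
  refine ⟨(L.map V).toFinset, ?_, a, ?_⟩
  · rw [SimpleGraph.isNClique_iff]
    constructor
    · intro u hu v hv huv
      rw [Finset.mem_coe, List.mem_toFinset] at hu hv
      exact (hsym u hu v hv huv).1
    · rw [List.toFinset_card_of_nodup hnd, List.length_map, hL1]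
  · intro u hu v hv h
    rw [List.mem_toFinset] at hu hv
    exact (hsym u hu v hv h.ne).2 h

end Pool.Agent.Results.MP_90c2fd_co.KneserRamsey
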